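import Pool.Agent.Helper96.CT.Stmts3

/-! # CT: the row HB -/

set_option autoImplicit false

namespace Pool.Agent.Helper33.CT

open SimpleGraph Pool.Agent.Helper96.CT

/-- the vertices -/
abbrev VV (a b t : ℕ) : Type := Fin b ⊕ (Fin t × Fin a)

/-- the clique of a vertex -/
def cp {a b t : ℕ} : VV a b t → Option (Fin t)
  | .inl _ => none
  | .inr p => some p.1

/-- the number of the clique of a vertex -/
def cn {a b t : ℕ} : VV a b t → ℕ
  | .inl _ => 0
  | .inr p => p.1.val + 1

/-- the graph with the centre `c` and the joined vertices `inr (i, r)` -/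
def FF {a b t : ℕ} (c : Fin b) (r : Fin a) : SimpleGraph (VV a b t) where
  Adj u v := u ≠ v ∧ (cp u = cp v ∨ (u = Sum.inl c ∧ ∃ i, v = Sum.inr (i, r)) ∨
    (v = Sum.inl c ∧ ∃ i, u = Sum.inr (i, r)))
  symm := ⟨fun u v h => ⟨h.1.symm, by
    rcases h.2 with h | h | h
    · exact Or.inl h.symm
    · exact Or.inr (Or.inr h)
    · exact Or.inr (Or.inl h)⟩⟩
  loopless := ⟨fun u h => h.1 rfl⟩

theorem cn_of_cp {a b t : ℕ} {u v : VV a b t} (h : cp u = cp v) : cn u = cn v := by
  rcases u with x | p <;> rcases v with y | q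
  · rfl
  · simp [cp] at h
  · simp [cp] at h
  · simp only [cp, Option.some.injEq] at h
    simp only [cn, h]

theorem hub {a t : ℕ} (c : Fin (a + 1)) (r : Fin a) :
    Hub (FF (t := t) c r) a (Sum.inl c) cn := by
  classical
  constructor
  · intro i I hI
    cases i with
    | zero =>
      have hs : insert (Sum.inl c) I ⊆
          (Finset.univ : Finset (Fin (a + 1))).image (fun x => (Sum.inl x : VV a (a + 1) t)) := by
        intro y hy
        rw [Finset.mem_insert] at hy
        rcases hy with rfl | hy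
        · simp
        · have hy' := (hI y hy).2
          rcases y with x | ⟨j, x⟩
          · simp
          · simp [cn] at hy'
      have h1 := Finset.card_le_card hs
      have h2 : (Sum.inl c : VV a (a + 1) t) ∉ I := fun h => (hI _ h).1 rfl
      rw [Finset.card_insert_of_notMem h2] at h1
      have h3 : ((Finset.univ : Finset (Fin (a + 1))).image
          (fun x => (Sum.inl x : VV a (a + 1) t))).card ≤ a + 1 :=
        Finset.card_image_le.trans (by simp)
      omega
    | succ k =>
      by_cases hk : k < t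
      · have hs : I ⊆ (Finset.univ : Finset (Fin a)).image
            (fun x => (Sum.inr (⟨k, hk⟩, x) : VV a (a + 1) t)) := by
          intro y hy
          have hy' := (hI y hy).2
          rcases y with x | ⟨j, x⟩
          · simp [cn] at hy'
          · have hj : j = ⟨k, hk⟩ := by
              apply Fin.ext
              simp only [cn] at hy'
              show j.val = k
              omega
            rw [hj]
            simp
        exact (Finset.card_le_card hs).trans (Finset.card_image_le.trans (by simp))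
      · have hs : I = ∅ := by
          rw [Finset.eq_empty_iff_forall_notMem]
          intro y hy
          have hy' := (hI y hy).2
          rcases y with x | ⟨j, x⟩
          · simp [cn] at hy'
          · simp only [cn] at hy'
            have := j.isLt
            omega
        rw [hs]
        simp
  · intro u v huv hu hv
    rcases huv.2 with h | ⟨h, _⟩ | ⟨h, _⟩
    · exact cn_of_cp h
    · exact absurd h hu
    · exact absurd h hv

theorem st_HB : ST_HB := by
  intro t' a ht ha
  obtain ⟨t, rfl⟩ : ∃ t, t' = t + 1 := ⟨t' - 1, by omega⟩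
  obtain ⟨c, hc⟩ : ∃ c : Fin (a + 1), c.val = 0 := ⟨⟨0, by omega⟩, rfl⟩
  obtain ⟨r, hr⟩ : ∃ r : Fin a, r.val = 0 := ⟨⟨0, by omega⟩, rfl⟩
  obtain ⟨c1, hc1⟩ : ∃ c : Fin (a + 1), c.val = 1 := ⟨⟨1, by omega⟩, rfl⟩
  obtain ⟨r1, hr1⟩ : ∃ r : Fin a, r.val = 1 := ⟨⟨1, by omega⟩, rfl⟩
  obtain ⟨i0, hi0⟩ : ∃ i : Fin t, i.val = 0 := ⟨⟨0, by omega⟩, rfl⟩
  have hcc : c1 ≠ c := fun h => by rw [h, hc] at hc1; omega
  have hrr : r1 ≠ r := fun h => by rw [h, hr] at hr1; omega
  refine ⟨VV a (a + 1) t, inferInstance, FF c r, Sum.inl c, cn, ?_, ?_, ?_, ?_, hub c r⟩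
  · simp only [VV, Fintype.card_sum, Fintype.card_prod, Fintype.card_fin]
    ring
  · have key : ∀ v : VV a (a + 1) t, (FF c r).Reachable (Sum.inl c) v := by
      intro v
      rcases v with x | ⟨i, x⟩
      · by_cases hx : x = c
        · rw [hx]
        · exact Adj.reachable ⟨fun h => hx (Sum.inl.inj h).symm, Or.inl rfl⟩
      · have h1 : (FF c r).Adj (Sum.inl c) (Sum.inr (i, r)) :=
          ⟨by simp, Or.inr (Or.inl ⟨rfl, i, rfl⟩)⟩
        by_cases hx : x = r
        · rw [hx]; exact h1.reachable
        · exact h1.reachable.trans (Adj.reachable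
            ⟨fun h => hx (Prod.mk.inj (Sum.inr.inj h)).2.symm, Or.inl rfl⟩)
    have : Nonempty (VV a (a + 1) t) := ⟨Sum.inl c⟩
    exact ⟨fun u v => (key u).symm.trans (key v)⟩
  · have k1 : ∀ x : Fin (a + 1), x ≠ c → ∀ p : Fin t × Fin a,
        (FF c r)ᶜ.Adj (Sum.inl x) (Sum.inr p) := by
      intro x hx p
      rw [compl_adj]
      refine ⟨by simp, fun h => ?_⟩
      rcases h.2 with h1 | ⟨h1, _⟩ | ⟨h1, _⟩
      · simp [cp] at h1
      · exact hx (Sum.inl.inj h1)
      · simp at h1
    have k2 : (FF c r)ᶜ.Adj (Sum.inl c) (Sum.inr (i0, r1)) := by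
      rw [compl_adj]
      refine ⟨by simp, fun h => ?_⟩
      rcases h.2 with h1 | ⟨_, i, h1⟩ | ⟨h1, _⟩
      · simp [cp] at h1
      · exact hrr (Prod.mk.inj (Sum.inr.inj h1)).2
      · simp at h1
    have key : ∀ v : VV a (a + 1) t, (FF c r)ᶜ.Reachable (Sum.inl c1) v := by
      intro v
      rcases v with x | p
      · by_cases hx : x = c
        · rw [hx]
          exact (k1 c1 hcc (i0, r1)).reachable.trans k2.symm.reachable
        · exact (k1 c1 hcc (i0, r1)).reachable.trans (k1 x hx (i0, r1)).symm.reachable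
      · exact (k1 c1 hcc p).reachable
    have : Nonempty (VV a (a + 1) t) := ⟨Sum.inl c⟩
    exact ⟨fun u v => (key u).symm.trans (key v)⟩
  · intro I hI
    have hinj : Set.InjOn (cp : VV a (a + 1) t → Option (Fin t)) (I : Set (VV a (a + 1) t)) := by
      intro x hx y hy hxy
      by_contra hne
      exact hI x hx y hy hne ⟨hne, Or.inl hxy⟩
    have := Finset.card_le_card_of_injOn (t := (Finset.univ : Finset (Option (Fin t)))) cp
      (fun x _ => Finset.mem_coe.2 (Finset.mem_univ _)) hinj
    simpa using this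

end Pool.Agent.Helper33.CT
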